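import Mathlib
import Pool.Agent.H21.ACCDef

namespace Pool.Agent.Results.MP_c4d24c_al.Counter

open Pool.Agent.H21.ACC

/-- `P j n l = d^j x_n c^l`, `Y j n l = d^j a x_n c^l`, `Z j n l = d^j x_n b c^l`, and a zero. -/
inductive X
  | P (j : ℕ) (n : ℤ) (l : ℕ)
  | Y (j : ℕ) (n : ℤ) (l : ℕ)
  | Z (j : ℕ) (n : ℤ) (l : ℕ)
  | O

open X

def L : Bool → X → X
  | _, O => O
  | true, P j n l => P (j + 1) n l
  | true, Y j n l => Y (j + 1) n l
  | true, Z j n l => Z (j + 1) n l
  | false, P (j + 1) n l => P j n l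
  | false, Y (j + 1) n l => Y j n l
  | false, Z (j + 1) n l => Z j n l
  | false, P 0 n l => Y 0 n l
  | false, Y 0 n l => Y 0 (n - 1) (l + 1)
  | false, Z 0 n l => P 0 (n - 1) l

/-- The left-right mirror. -/
def σ : X → X
  | O => O
  | P j n l => P l n j
  | Y j n l => Z l n j
  | Z j n l => Y l n j

theorem σσ (x : X) : σ (σ x) = x := by cases x <;> rfl

def R (x : X) (b : Bool) : X := σ (L b (σ x))

theorem comm (a b : Bool) (x : X) : R (L a x) b = L a (R x b) := by
  rcases x with ⟨_ | j, n, _ | l⟩ | ⟨_ | j, n, _ | l⟩ | ⟨_ | j, n, _ | l⟩ | _ <;> cases a <;>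
    cases b <;> rfl

def LL (w : List Bool) (x : X) : X := w.foldr L x
def RR (x : X) (w : List Bool) : X := w.foldl R x

theorem comm1 (a : Bool) (w : List Bool) (x : X) : RR (L a x) w = L a (RR x w) := by
  induction w generalizing x with
  | nil => rfl
  | cons b w ih => simp only [RR, List.foldl_cons] at *; rw [comm, ih]

theorem comm2 (v w : List Bool) (x : X) : RR (LL v x) w = LL v (RR x w) := by
  induction v with
  | nil => rfl
  | cons b v ih => simp only [LL, List.foldr_cons] at *; rw [comm1, ih]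

theorem RR_eq (x : X) (w : List Bool) : RR x w = σ (LL w.reverse (σ x)) := by
  induction w generalizing x with
  | nil => exact (σσ x).symm
  | cons b w ih =>
    simp only [RR, LL, List.foldl_cons, List.reverse_cons, List.foldr_append] at *
    rw [ih, R, σσ]; rfl

theorem LL_O (w : List Bool) : LL w O = O := by
  induction w with
  | nil => rfl
  | cons b w ih => simp only [LL, List.foldr_cons] at *; rw [ih]; cases b <;> rfl

theorem RR_O (w : List Bool) : RR O w = O := by rw [RR_eq]; exact congrArg σ (LL_O _)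

inductive H
  | W (w : List Bool)
  | E (x : X)

open H

def mul : H → H → H
  | W v, W w => W (v ++ w)
  | W v, E x => E (LL v x)
  | E x, W w => E (RR x w)
  | E _, E _ => E O

instance : Monoid H where
  mul := mul
  one := W []
  mul_assoc a b c := by
    change mul (mul a b) c = mul a (mul b c)
    rcases a with a | a <;> rcases b with b | b <;> rcases c with c | c <;>
      simp only [mul, List.append_assoc, comm2, LL_O, RR_O]
    · simp [LL]
    · simp [RR]
  one_mul a := by cases a <;> rfl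
  mul_one a := by
    change mul a (W []) = a
    cases a <;> simp [mul, RR]

theorem mul_def (a b : H) : a * b = mul a b := rfl

def core : X → X
  | O => O
  | P _ n l => P 0 n l
  | Y _ n l => Y 0 n l
  | Z _ n l => Z 0 n l

def rk : X → ℕ∞
  | O => ⊤
  | P _ _ _ => 1
  | Y _ _ l => (l + 2 : ℕ)
  | Z _ _ _ => 0

theorem step (w : List Bool) (x : X) :
    rk x ≤ rk (LL w x) ∧ (core (LL w x) = core x ∨ rk x < rk (LL w x)) := by
  induction w with
  | nil => exact ⟨le_rfl, Or.inl rfl⟩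
  | cons b w ih =>
    have : ∀ y, rk y ≤ rk (L b y) ∧ (core (L b y) = core y ∨ rk y < rk (L b y)) := by
      intro y
      rcases y with ⟨_ | j, n, l⟩ | ⟨_ | j, n, l⟩ | ⟨_ | j, n, l⟩ | _ <;> cases b <;>
        simp only [L, core, rk, le_refl, true_or, true_and, and_self] <;> norm_cast <;> simp
    obtain ⟨h1, h2⟩ := this (LL w x)
    refine ⟨ih.1.trans h1, ?_⟩
    rcases h2 with h2 | h2
    · exact ih.2.imp h2.trans fun h => h.trans_le h1
    · exact Or.inr (ih.1.trans_lt h2)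

theorem to_core (x : X) : (∃ w, LL w x = core x) ∧ ∃ w, LL w (core x) = x := by
  rcases x with ⟨j, n, l⟩ | ⟨j, n, l⟩ | ⟨j, n, l⟩ | _
  iterate 3
    induction j with
    | zero => exact ⟨⟨[], rfl⟩, [], rfl⟩
    | succ j ih =>
      obtain ⟨⟨v, hv⟩, w, hw⟩ := ih
      exact ⟨⟨v ++ [false], by rw [LL, List.foldr_append]; exact hv⟩,
        true :: w, congrArg (L true) hw⟩
  exact ⟨⟨[], rfl⟩, [], rfl⟩

theorem back (w : List Bool) (x : X) : (∃ v, x = LL v (LL w x)) ∨ rk x < rk (LL w x) := by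
  refine (step w x).2.imp_left fun h => ?_
  obtain ⟨u, hu⟩ := (to_core (LL w x)).1
  obtain ⟨v, hv⟩ := (to_core x).2
  exact ⟨v ++ u, by rw [LL, List.foldr_append]; change _ = LL v (LL u _); rw [hu, h, hv]⟩

theorem acc (I : H → Set H) (μ : H → ℕ ×ₗ ℕ∞)
    (h : ∀ x y, I x ⊆ I y → I y ⊆ I x ∨ μ y < μ x) : ACC H I := by
  intro x hx
  have hm : Monotone fun n => I (x n) := monotone_nat_of_le_succ hx
  obtain ⟨_, ⟨N, rfl⟩, hN⟩ := (wellFounded_lt (α := ℕ ×ₗ ℕ∞)).has_min
    (Set.range fun n => μ (x n)) (Set.range_nonempty _)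
  exact ⟨N, fun n hn => subset_antisymm ((h _ _ (hm hn)).resolve_right (hN _ ⟨n, rfl⟩)) (hm hn)⟩

def μ (f : X → X) : H → ℕ ×ₗ ℕ∞
  | W w => toLex (0, (w.length : ℕ∞))
  | E x => toLex (1, rk (f x))

def lev : X → WithBot ℤ
  | O => ⊥
  | P _ n _ => n
  | Y _ n _ => n
  | Z _ n _ => n

theorem lev_LL (w : List Bool) (x : X) : lev (LL w x) ≤ lev x := by
  induction w with
  | nil => exact le_rfl
  | cons b w ih =>
    refine le_trans ?_ ih
    change lev (L b (LL w x)) ≤ _
    rcases LL w x with ⟨_ | j, n, l⟩ | ⟨_ | j, n, l⟩ | ⟨_ | j, n, l⟩ | _ <;> cases b <;>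
      simp only [L, lev, le_refl] <;> exact WithBot.coe_le_coe.2 (by omega)

theorem lev_σ (x : X) : lev (σ x) = lev x := by cases x <;> rfl

theorem rk_O (x : X) : x = O ∨ rk x < ⊤ := by
  cases x <;> simp only [rk, true_or, ENat.coe_lt_top, or_true] <;> simp

theorem result : ∃ (H : Type) (_ : Monoid H), ACCPL H ∧ ACCPR H ∧ ¬ ACCP H := by
  refine ⟨H, inferInstance, acc _ (μ id) fun x y h => ?_, acc _ (μ σ) fun x y h => ?_, fun h => ?_⟩
  · obtain ⟨g, rfl⟩ := h ⟨1, (one_mul x).symm⟩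
    suffices (∃ k, y = k * (g * y)) ∨ μ id y < μ id (g * y) from
      this.imp_left fun ⟨k, hk⟩ z ⟨t, ht⟩ => ⟨t * k, by rw [mul_assoc, ← hk, ht]⟩
    rcases g with (_ | ⟨a, g⟩) | g <;> rcases y with y | y <;>
      simp only [mul_def, mul, μ, Prod.Lex.toLex_lt_toLex, id]
    · exact Or.inl ⟨1, rfl⟩
    · exact Or.inl ⟨1, rfl⟩
    · right; right; simp; norm_cast; omega
    · exact (back (a :: g) y).imp (fun ⟨v, hv⟩ => ⟨W v, congrArg E hv⟩) fun h => Or.inr ⟨trivial, h⟩
    · simp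
    · exact (rk_O y).imp (fun h => ⟨1, congrArg E h⟩) fun h => Or.inr ⟨trivial, h⟩
  · obtain ⟨g, rfl⟩ := h ⟨1, (mul_one x).symm⟩
    suffices (∃ k, y = (y * g) * k) ∨ μ σ y < μ σ (y * g) from
      this.imp_left fun ⟨k, hk⟩ z ⟨t, ht⟩ => ⟨k * t, by rw [← mul_assoc, ← hk, ht]⟩
    rcases g with (_ | ⟨a, g⟩) | g <;> rcases y with y | y <;>
      simp only [mul_def, mul, μ, Prod.Lex.toLex_lt_toLex]
    · exact Or.inl ⟨W [], by simp⟩
    · exact Or.inl ⟨1, rfl⟩
    · right; right; simp; norm_cast; omega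
    · rw [RR_eq, σσ]
      refine (back (a :: g).reverse (σ y)).imp (fun ⟨v, hv⟩ => ⟨W v.reverse, congrArg E ?_⟩)
        fun h => Or.inr ⟨trivial, h⟩
      rw [RR_eq, σσ, List.reverse_reverse, ← hv, σσ]
    · simp
    · exact (rk_O (σ y)).imp (fun h => ⟨1, congrArg E (by rw [← σσ y, h]; rfl)⟩)
        fun h => Or.inr ⟨trivial, h⟩
  · obtain ⟨N, hN⟩ := h (fun n => E (P 0 n 0)) fun n z ⟨g, k, hz⟩ => ⟨g * W [false], W [false] * k, by
      have : E (P 0 n 0) = W [false] * E (P 0 (n + 1 : ℕ) 0) * W [false] := by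
        simp [mul_def, mul, LL, RR, R, L, σ]
      rw [hz, this]; simp only [mul_assoc]⟩
    obtain ⟨g, k, h⟩ := (Set.ext_iff.1 (hN (N + 1) (by omega)) (E (P 0 (N + 1 : ℕ) 0))).1 ⟨1, 1, by simp⟩
    have h1 : ∀ w v, lev (RR (LL w (P 0 N 0)) v) ≤ (N : ℤ) := fun w v => by
      rw [RR_eq, lev_σ]
      exact (lev_LL _ _).trans ((lev_σ _).trans_le (lev_LL _ _))
    rcases g with g | g <;> rcases k with k | k <;> simp only [mul_def, mul, E.injEq, RR_O] at h
    · have := h1 g k
      rw [← h] at this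
      have := WithBot.coe_le_coe.1 this
      omega
    all_goals cases h

end Pool.Agent.Results.MP_c4d24c_al.Counter
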